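import Mathlib
import Pool.Agent.W5h65.EE.HypH

/-!
# Sums of exponentials of algebraic numbers which are linear forms in logarithms
-/

set_option autoImplicit false

namespace Pool.Agent.Results.MP_58ae59_nt.AlgebraicExponents

open Module Pointwise Complex Polynomial

/-- the field of algebraic numbers (the algebraic closure of `ℚ` in `ℂ`) -/
noncomputable abbrev Qbar : IntermediateField ℚ ℂ := algebraicClosure ℚ ℂ

/-- linear combinations, with algebraic coefficients, of `1` and of logarithms of algebraic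
numbers -/
noncomputable def LinForms : Submodule Qbar ℂ :=
  Submodule.span Qbar ({1} ∪ {z : ℂ | IsAlgebraic ℚ (Complex.exp z)})

/-- linear combinations, with algebraic coefficients, of the numbers `e ^ β`, `β ∈ B` -/
noncomputable def ExpSpan (B : Finset ℂ) : Submodule Qbar ℂ :=
  Submodule.span Qbar (Complex.exp '' B)

/-- linear combinations, with algebraic coefficients, of `1, e, …, e ^ N` -/
noncomputable def PowSpan (N : ℕ) : Submodule Qbar ℂ :=
  Submodule.span Qbar {z : ℂ | ∃ j : ℕ, j ≤ N ∧ z = (Complex.exp 1) ^ j}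

/-- the set of all `n_1 ω_1 + ⋯ + n_m ω_m` with integers `0 ≤ n_i < N` -/
noncomputable def box {m : ℕ} (ω : Fin m → ℂ) (N : ℕ) : Finset ℂ :=
  (Fintype.piFinset (fun _ : Fin m => Finset.range N)).image (fun n => ∑ i, (n i : ℂ) * ω i)

theorem result :
    -- the powers of `e`, and polynomials `P` in `e` with `e ^ P(e)` algebraic
    (∀ N : ℕ, (finrank Qbar (PowSpan N ⊓ LinForms : Submodule Qbar ℂ)) ^ 2 ≤ 4 * N + 1) ∧
    (∀ (N k : ℕ) (P : Fin k → Qbar[X]), LinearIndependent ℚ P →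
      (∀ i, (P i).natDegree ≤ N ∧ (P i).coeff 0 = 0) →
      (∀ i, IsAlgebraic ℚ (exp (aeval (exp 1) (P i)))) → (k + 1) ^ 2 ≤ 4 * N + 1) ∧
    -- arbitrary finite sets of algebraic exponents
    (∀ B D : Finset ℂ, (∀ β ∈ B, IsAlgebraic ℚ β) → (∀ δ ∈ D, IsAlgebraic ℚ δ) →
      D.card * (finrank Qbar (ExpSpan B ⊓ LinForms : Submodule Qbar ℂ) + 1) ≤
        (B + D).card + D.card ^ 2) ∧
    -- algebraic `β` with `e ^ (e ^ β)` algebraic
    (∀ T D : Finset ℂ, (∀ β ∈ T, IsAlgebraic ℚ β ∧ IsAlgebraic ℚ (exp (exp β))) →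
      (∀ δ ∈ D, IsAlgebraic ℚ δ) → D.card * (T.card + 1) ≤ (T + D).card + D.card ^ 2) ∧
    -- boxes
    (∀ (m : ℕ) (ω : Fin m → ℂ), (∀ i, IsAlgebraic ℚ (ω i)) → LinearIndependent ℚ ω →
      ∀ N s : ℕ, 1 ≤ s → N ≤ s ^ 2 →
        (box ω N).card = N ^ m ∧
        finrank Qbar (ExpSpan (box ω N) ⊓ LinForms : Submodule Qbar ℂ) + 1 ≤
          (s + 1) ^ m + s ^ m ∧
        ∀ T ⊆ box ω N, (∀ β ∈ T, IsAlgebraic ℚ (exp (exp β))) →
          T.card + 1 ≤ (s + 1) ^ m + s ^ m) := by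
  refine ⟨fun N => ?_, fun N k P h1 h2 h3 => ?_, fun B D _ hD => ?_, fun T D hT hD => ?_, fun m ω hω hli N s hs hN =>
    ⟨?_, ?_, ?_⟩⟩
  · exact Pool.Agent.W5h65.EE.Hyp.pow_count
      Pool.Agent.H340R2.LW.transcendental_exp_one_complex N _ le_rfl
  · exact Pool.Agent.W5h65.EE.Hyp.poly_alg_sq N k P h1 (fun i => (h2 i).1) (fun i => (h2 i).2) h3
  · exact Pool.Agent.W5h65.EE.Hyp.exp_count B D hD
  · exact Pool.Agent.W5h65.EE.Hyp.exp_exp_count T D (fun b hb => (hT b hb).1)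
      (fun b hb => Pool.Agent.H301R2.SSE.Lt_log (hT b hb).2) hD
  · exact Pool.Agent.W5h65.EE.Hyp.card_box hli N
  · exact Pool.Agent.W5h65.EE.Hyp.box_count hli hω N s hs hN
  · intro T hT hTe
    exact Pool.Agent.W5h65.EE.Hyp.box_count_T hli hω N s hs hN T hT
      (fun b hb => Pool.Agent.H301R2.SSE.Lt_log (hTe b hb))

end Pool.Agent.Results.MP_58ae59_nt.AlgebraicExponents
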