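import Mathlib
import Pool.Agent.W99.ExpE.Main
import Pool.Agent.Results.MP_58ae59_nt.PowersNearOne

set_option autoImplicit false

namespace Pool.Agent.Results.MP_58ae59_nt.DifferenceOfTerms

open Real Pool.Agent.H43R2.Cplx.EMeas Pool.Agent.H364R2.EE Pool.Agent.W99.ExpE

/-- the distance of `2 θ₂`, `θ₂ = (4/5) j² k⁴ e`, from the integers -/
theorem d3_bound (j k P : ℕ) (hj : 1 ≤ j) (hk : 1 ≤ k) (hP : P = j * k) (N : ℤ) :
    1 / (13760 * (P : ℝ) ^ 5) ≤ |2 * (4 / 5 * ((j : ℝ) ^ 2 * (k : ℝ) ^ 4 * exp 1)) - N| := by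
  have hP1 : 1 ≤ P := by rw [hP]; exact Nat.mul_le_mul hj hk
  have h1 : P < 2 ^ P := Nat.lt_two_pow_self
  have hle : j ^ 2 * k ^ 4 ≤ P ^ 4 := by
    rw [hP, mul_pow]
    exact Nat.mul_le_mul_right _ (Nat.pow_le_pow_right hj (by norm_num))
  have hpos : 1 ≤ j ^ 2 * k ^ 4 := Nat.mul_le_mul (Nat.one_le_pow _ _ hj) (Nat.one_le_pow _ _ hk)
  have h2 : 8 * (8 * (j ^ 2 * k ^ 4)) ≤ 2 ^ (4 * P + 6) := by
    have : P ^ 4 ≤ (2 ^ P) ^ 4 := Nat.pow_le_pow_left h1.le 4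
    calc 8 * (8 * (j ^ 2 * k ^ 4)) = (j ^ 2 * k ^ 4) * 64 := by ring
      _ ≤ (2 ^ P) ^ 4 * 64 := Nat.mul_le_mul_right _ (hle.trans this)
      _ = 2 ^ (4 * P + 6) := by rw [← pow_mul, pow_add]; ring
  have h3 := dist_e (8 * (j ^ 2 * k ^ 4)) (4 * P + 6) (by omega) h2 (5 * N)
  have hPR : (1 : ℝ) ≤ P := by exact_mod_cast hP1
  push_cast at h3
  have h4 : |2 * (4 / 5 * ((j : ℝ) ^ 2 * (k : ℝ) ^ 4 * exp 1)) - N| =
      |8 * ((j : ℝ) ^ 2 * (k : ℝ) ^ 4) * exp 1 - 5 * N| / 5 := by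
    rw [eq_div_iff (by norm_num), ← abs_of_pos (by norm_num : (0 : ℝ) < 5), ← abs_mul,
      abs_of_pos (by norm_num : (0 : ℝ) < 5)]
    congr 1
    ring
  rw [h4, le_div_iff₀ (by norm_num)]
  refine le_trans ?_ h3
  have hjkR : (j : ℝ) ^ 2 * (k : ℝ) ^ 4 ≤ (P : ℝ) ^ 4 := by exact_mod_cast hle
  have hjk1 : (1 : ℝ) ≤ (j : ℝ) ^ 2 * (k : ℝ) ^ 4 := by exact_mod_cast hpos
  rw [div_mul_eq_mul_div, div_le_div_iff₀ (by positivity) (by positivity)]
  have h5 : 4 * (4 * (P : ℝ) + 6) + 3 ≤ 43 * P := by linarith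
  have h6 : 8 * (4 * (4 * (P : ℝ) + 6) + 3) * (8 * ((j : ℝ) ^ 2 * (k : ℝ) ^ 4)) ≤
      8 * (43 * P) * (8 * (P : ℝ) ^ 4) := by
    apply mul_le_mul _ _ (by positivity) (by positivity)
    · linarith
    · linarith
  nlinarith

/-- both relations, with an explicit bound -/
theorem core (k j : ℕ) (hk : 1 ≤ k) (hj : 1 ≤ j) (c m : ℕ)
    (hc : q (10 ^ 7 * (j * k) ^ 13) ≤ c)
    (h : exp (exp 1) ^ j = (((c : ℝ) + k) / ((c : ℝ) - k)) ^ m) : k < c ∧ m ≠ 0 ∧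
    (∃ n, 2 * m * k * q n = j * c * r n) ∧
    (∃ n, 6 * m * c * k * q n = j * (3 * c ^ 2 - k ^ 2) * r n) := by
  obtain ⟨P, hPd⟩ : ∃ P, P = j * k := ⟨_, rfl⟩
  have hP : 1 ≤ P := by rw [hPd]; exact Nat.mul_le_mul hj hk
  have hPR : (1 : ℝ) ≤ P := by exact_mod_cast hP
  have hPR0 : (0 : ℝ) < P := by linarith
  rw [← hPd] at hc
  obtain ⟨N1, hN1⟩ : ∃ N1, N1 = 10 ^ 7 * P ^ 13 := ⟨_, rfl⟩
  rw [← hN1] at hc
  have hP13 : 1 ≤ P ^ 13 := Nat.one_le_pow _ _ hP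
  have hN1big : 10 ^ 7 ≤ N1 := by rw [hN1]; omega
  have hM : N1 ≤ q N1 := q_ge N1 (by omega)
  have hcN : N1 ≤ c := hM.trans hc
  have hPP : P ≤ P ^ 13 := Nat.le_self_pow (by norm_num) _
  have hkP : k ≤ P := by rw [hPd]; exact Nat.le_mul_of_pos_left k hj
  have h2k : 2 * k ≤ c := by omega
  have hjc : c ≤ j * c := Nat.le_mul_of_pos_left c hj
  have hcR : 10 ^ 7 * (P : ℝ) ^ 13 ≤ c := by
    have : ((10 ^ 7 * P ^ 13 : ℕ) : ℝ) ≤ c := by rw [← hN1]; exact_mod_cast hcN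
    push_cast at this
    linarith
  have h13 : (1 : ℝ) ≤ (P : ℝ) ^ 13 := one_le_pow₀ hPR
  have hcR1 : (1 : ℝ) ≤ c := by linarith
  have hjR : (1 : ℝ) ≤ j := by exact_mod_cast hj
  have hkR : (1 : ℝ) ≤ k := by exact_mod_cast hk
  have hPjk : (P : ℝ) = j * k := by rw [hPd]; push_cast; ring
  obtain ⟨e, he⟩ : ∃ e : ℝ, e = exp 1 := ⟨_, rfl⟩
  have he0 : 0 < e := by rw [he]; exact Real.exp_pos 1
  have he3 : e ≤ 2.72 := by rw [he]; linarith [Real.exp_one_lt_d9]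
  have hm0 : m ≠ 0 := by
    rintro rfl
    have h3 := congrArg Real.log h
    rw [Real.log_pow, Real.log_exp, pow_zero, Real.log_one] at h3
    have : (0 : ℝ) < (j : ℝ) * exp 1 := by positivity
    linarith
  refine ⟨by omega, hm0, ?_, ?_⟩
  · -- first relation
    obtain ⟨n, hn, hn1, hn2⟩ := index_ge N1 ((j * c : ℕ) : ℤ) (by exact_mod_cast hc.trans hjc)
    obtain ⟨B, hB⟩ : ∃ B : ℝ, B = j * c := ⟨_, rfl⟩
    have hη := first_approx j k c m hj hk h2k h P B hPjk hB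
    have hcB : (c : ℝ) ≤ B := by
      rw [hB]
      have : 1 * (c : ℝ) ≤ j * c := mul_le_mul_of_nonneg_right hjR (by linarith)
      linarith
    obtain ⟨θ1, hθ1⟩ : ∃ θ1 : ℝ, θ1 = (P : ℝ) ^ 2 * e / 3 := ⟨_, rfl⟩
    have hθ1pos : 0 < θ1 := by rw [hθ1]; positivity
    have hd1 : 1 / (1296 * (P : ℝ) ^ 3) ≤ 1 := by
      rw [div_le_one (by positivity)]
      have : (1 : ℝ) ≤ (P : ℝ) ^ 3 := one_le_pow₀ hPR
      linarith
    have hdist : ∀ N : ℤ, 1 / (1296 * (P : ℝ) ^ 3) ≤ |2 * θ1 - N| := by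
      intro N
      have := d1_bound P hP N
      rw [← he, ← hθ1] at this
      exact this
    have hnP : (10 ^ 7 * (P : ℝ) ^ 13) ≤ n := by
      have : ((10 ^ 7 * P ^ 13 : ℕ) : ℝ) ≤ n := by
        rw [← hN1]; exact_mod_cast hn
      push_cast at this
      linarith
    have hsize : 48 * (|θ1| + 1) ^ 2 ≤ n * (1 / (1296 * (P : ℝ) ^ 3)) := by
      rw [abs_of_pos hθ1pos]
      have h2 : (1 : ℝ) ≤ (P : ℝ) ^ 2 := one_le_pow₀ hPR
      have e0 : (P : ℝ) ^ 2 * e ≤ (P : ℝ) ^ 2 * 2.72 :=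
        mul_le_mul_of_nonneg_left he3 (by positivity)
      have e1 : θ1 + 1 ≤ 2 * (P : ℝ) ^ 2 := by
        rw [hθ1]; linarith
      have e2 : (θ1 + 1) ^ 2 ≤ (2 * (P : ℝ) ^ 2) ^ 2 := pow_le_pow_left₀ (by linarith) e1 2
      rw [mul_one_div, le_div_iff₀ (by positivity)]
      have e4 : (P : ℝ) ^ 7 ≤ (P : ℝ) ^ 13 := pow_le_pow_right₀ hPR (by norm_num)
      have e5 : (θ1 + 1) ^ 2 * (P : ℝ) ^ 3 ≤ (2 * (P : ℝ) ^ 2) ^ 2 * (P : ℝ) ^ 3 :=
        mul_le_mul_of_nonneg_right e2 (by positivity)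
      have e6 : (2 * (P : ℝ) ^ 2) ^ 2 * (P : ℝ) ^ 3 = 4 * (P : ℝ) ^ 7 := by ring
      rw [e6] at e5
      have e7 : 48 * (θ1 + 1) ^ 2 * (1296 * (P : ℝ) ^ 3) =
          62208 * ((θ1 + 1) ^ 2 * (P : ℝ) ^ 3) := by
        ring
      rw [e7]
      linarith
    have hval : ((((j * c : ℕ) : ℤ) : ℝ)) * ((((j * c : ℕ) : ℤ) : ℝ) * exp 1 -
        ((2 * m * k : ℤ) : ℝ)) = B * (B * exp 1 - 2 * m * k) := by
      rw [hB]; push_cast; ring
    have hsm : 2 * (P : ℝ) ^ 4 / B ^ 2 ≤ 1 / (1296 * (P : ℝ) ^ 3) / 8 := by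
      have hBpos : 0 < B := by linarith
      rw [div_div, div_le_div_iff₀ (by positivity) (by positivity)]
      have e1 : (P : ℝ) ^ 7 ≤ (P : ℝ) ^ 13 := pow_le_pow_right₀ hPR (by norm_num)
      have e2 : B ≤ B ^ 2 := le_self_pow₀ (by linarith) (by norm_num)
      have e3 : 2 * (P : ℝ) ^ 4 * (1296 * (P : ℝ) ^ 3 * 8) = 20736 * (P : ℝ) ^ 7 := by ring
      rw [e3]
      linarith
    obtain ⟨t, ht1, ht2⟩ := level θ1 (1 / (1296 * (P : ℝ) ^ 3)) (by positivity) hd1 hdist n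
      (by omega) hsize (2 * m * k) ((j * c : ℕ) : ℤ) hn1 hn2 (by
        rw [hval, hθ1, he]
        exact hη.trans hsm)
    refine ⟨n, ?_⟩
    have : (2 * (m : ℤ) * k) * q n = ((j * c : ℕ) : ℤ) * r n := by
      rw [ht1, ht2]; ring
    exact_mod_cast this
  · -- second relation
    obtain ⟨β, hβd⟩ : ∃ β : ℝ, β = (c : ℝ) / k := ⟨_, rfl⟩
    have hcβ : (c : ℝ) = k * β := by rw [hβd]; field_simp
    have hβ : (2 : ℝ) ≤ β := by
      rw [hβd, le_div_iff₀ (by linarith)]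
      exact_mod_cast h2k
    obtain ⟨l3, l4⟩ := PowersNearOne.log_bounds2 β hβ
    have hkc' : (k : ℝ) < c := by
      have : (2 : ℝ) * k ≤ c := by exact_mod_cast h2k
      linarith
    have hratio : ((c : ℝ) + k) / ((c : ℝ) - k) = (β + 1) / (β - 1) := by
      rw [div_eq_div_iff (by linarith) (by linarith), hcβ]
      ring
    rw [hratio] at h
    have hlog : (j : ℝ) * e = m * log ((β + 1) / (β - 1)) := by
      have := congrArg Real.log h
      rw [Real.log_pow, Real.log_exp, Real.log_pow] at this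
      rw [he]
      exact this
    have hm : (0 : ℝ) ≤ m := by positivity
    obtain ⟨θ2, hθ2⟩ : ∃ θ2 : ℝ, θ2 = 4 / 5 * ((j : ℝ) ^ 2 * (k : ℝ) ^ 4 * e) := ⟨_, rfl⟩
    have hθ2pos : 0 < θ2 := by rw [hθ2]; positivity
    have hd3 : 1 / (13760 * (P : ℝ) ^ 5) ≤ 1 := by
      rw [div_le_one (by positivity)]
      have : (1 : ℝ) ≤ (P : ℝ) ^ 5 := one_le_pow₀ hPR
      linarith
    have hdist : ∀ N : ℤ, 1 / (13760 * (P : ℝ) ^ 5) ≤ |2 * θ2 - N| := by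
      intro N
      have := d3_bound j k P hj hk hPd N
      rw [← he, ← hθ2] at this
      exact this
    have hjk4 : (j : ℝ) ^ 2 * (k : ℝ) ^ 4 ≤ (P : ℝ) ^ 4 := by
      rw [hPjk, mul_pow]
      exact mul_le_mul_of_nonneg_right (pow_le_pow_right₀ hjR (by norm_num)) (by positivity)
    have hkPR : (k : ℝ) ≤ P := by exact_mod_cast hkP
    -- the error
    obtain ⟨δ, hδ⟩ : ∃ δ : ℝ, δ = 5 / 4 * ((j : ℝ) ^ 2 * (k : ℝ) ^ 4 * e) / β ^ 2 := ⟨_, rfl⟩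
    have hβ0 : 0 < β := by linarith
    have hδβ : 5 / 4 * ((j : ℝ) ^ 2 * (k : ℝ) ^ 4 * e) ≤ δ * β ^ 2 := by
      rw [hδ, div_mul_cancel₀ _ (by positivity)]
    have hδs : δ ≤ 1 / (13760 * (P : ℝ) ^ 5) / 8 := by
      rw [hδ, div_div, div_le_div_iff₀ (by positivity) (by positivity)]
      have e1 : (c : ℝ) ≤ β ^ 2 * P ^ 2 := by
        have e2 : (c : ℝ) ^ 2 ≤ β ^ 2 * P ^ 2 := by
          rw [hcβ, mul_pow, mul_comm]
          exact mul_le_mul_of_nonneg_left (pow_le_pow_left₀ (by linarith) hkPR 2) (by positivity)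
        have e3 : (c : ℝ) ≤ (c : ℝ) ^ 2 := le_self_pow₀ hcR1 (by norm_num)
        linarith
      have e2 : 10 ^ 7 * (P : ℝ) ^ 11 ≤ β ^ 2 := by
        have e3 : 10 ^ 7 * (P : ℝ) ^ 11 * P ^ 2 ≤ β ^ 2 * P ^ 2 := by
          have : 10 ^ 7 * (P : ℝ) ^ 11 * P ^ 2 = 10 ^ 7 * (P : ℝ) ^ 13 := by ring
          rw [this]; linarith
        exact le_of_mul_le_mul_right e3 (by positivity)
      have e4 : 5 / 4 * ((j : ℝ) ^ 2 * (k : ℝ) ^ 4 * e) ≤ 3.4 * (P : ℝ) ^ 4 := by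
        have : (j : ℝ) ^ 2 * (k : ℝ) ^ 4 * e ≤ (P : ℝ) ^ 4 * 2.72 :=
          mul_le_mul hjk4 he3 he0.le (by positivity)
        linarith
      have e5 : 5 / 4 * ((j : ℝ) ^ 2 * (k : ℝ) ^ 4 * e) * (13760 * (P : ℝ) ^ 5 * 8) ≤
          3.4 * (P : ℝ) ^ 4 * (13760 * (P : ℝ) ^ 5 * 8) :=
        mul_le_mul_of_nonneg_right e4 (by positivity)
      have e6 : 3.4 * (P : ℝ) ^ 4 * (13760 * (P : ℝ) ^ 5 * 8) = 374272 * (P : ℝ) ^ 9 := by ring
      have e7 : (P : ℝ) ^ 9 ≤ (P : ℝ) ^ 11 := pow_le_pow_right₀ hPR (by norm_num)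
      rw [e6] at e5
      have e8 : (0 : ℝ) ≤ (P : ℝ) ^ 11 := by positivity
      linarith
    have hcl := PowersNearOne.close2 j k β e m _ δ (by linarith) (by linarith) hβ he0 hm hlog hδβ
      l3 l4
    have hkc : k ^ 2 ≤ 3 * c ^ 2 := by
      have : k ^ 2 ≤ c ^ 2 := Nat.pow_le_pow_left (by omega) 2
      omega
    have hcb : (c : ℤ) ≤ j * (3 * c ^ 2 - k ^ 2) := by
      have e1 : (1 : ℤ) ≤ j := by exact_mod_cast hj
      have e2 : (2 : ℤ) * k ≤ c := by exact_mod_cast h2k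
      have e3 : (0 : ℤ) ≤ k := by positivity
      have e0 : (1 : ℤ) ≤ c := by
        have : 1 ≤ c := by omega
        exact_mod_cast this
      have e4 : (c : ℤ) ≤ 3 * c ^ 2 - k ^ 2 := by nlinarith
      nlinarith
    obtain ⟨n, hn, hn1, hn2⟩ := index_ge N1 ((j : ℤ) * (3 * c ^ 2 - k ^ 2)) (by
      have : (q N1 : ℤ) ≤ c := by exact_mod_cast hc
      linarith)
    have hnP : (10 ^ 7 * (P : ℝ) ^ 13) ≤ n := by
      have : ((10 ^ 7 * P ^ 13 : ℕ) : ℝ) ≤ n := by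
        rw [← hN1]; exact_mod_cast hn
      push_cast at this
      linarith
    have hsize : 48 * (|θ2| + 1) ^ 2 ≤ n * (1 / (13760 * (P : ℝ) ^ 5)) := by
      rw [abs_of_pos hθ2pos]
      have h4 : (1 : ℝ) ≤ (P : ℝ) ^ 4 := one_le_pow₀ hPR
      have e0 : (j : ℝ) ^ 2 * (k : ℝ) ^ 4 * e ≤ (P : ℝ) ^ 4 * 2.72 :=
        mul_le_mul hjk4 he3 he0.le (by positivity)
      have e1 : θ2 + 1 ≤ 3.2 * (P : ℝ) ^ 4 := by
        rw [hθ2]; linarith
      have e2 : (θ2 + 1) ^ 2 ≤ (3.2 * (P : ℝ) ^ 4) ^ 2 := pow_le_pow_left₀ (by linarith) e1 2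
      rw [mul_one_div, le_div_iff₀ (by positivity)]
      have e5 : (θ2 + 1) ^ 2 * (P : ℝ) ^ 5 ≤ (3.2 * (P : ℝ) ^ 4) ^ 2 * (P : ℝ) ^ 5 :=
        mul_le_mul_of_nonneg_right e2 (by positivity)
      have e6 : (3.2 * (P : ℝ) ^ 4) ^ 2 * (P : ℝ) ^ 5 = 10.24 * (P : ℝ) ^ 13 := by ring
      rw [e6] at e5
      have e7 : 48 * (θ2 + 1) ^ 2 * (13760 * (P : ℝ) ^ 5) =
          660480 * ((θ2 + 1) ^ 2 * (P : ℝ) ^ 5) := by
        ring
      rw [e7]
      linarith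
    have hval : (((j : ℤ) * (3 * c ^ 2 - k ^ 2) : ℤ) : ℝ) * ((((j : ℤ) * (3 * c ^ 2 - k ^ 2) : ℤ) : ℝ)
        * exp 1 - ((6 * m * c * k : ℤ) : ℝ)) =
        (j * (k : ℝ) ^ 2 * (3 * β ^ 2 - 1)) * ((j * (k : ℝ) ^ 2 * (3 * β ^ 2 - 1)) * e -
          6 * m * (k : ℝ) ^ 2 * β) := by
      push_cast
      rw [hcβ, he]
      ring
    obtain ⟨t, ht1, ht2⟩ := level θ2 (1 / (13760 * (P : ℝ) ^ 5)) (by positivity) hd3 hdist n
      (by omega) hsize (6 * m * c * k) ((j : ℤ) * (3 * c ^ 2 - k ^ 2)) hn1 hn2 (by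
        rw [hval, hθ2]
        exact hcl.trans hδs)
    refine ⟨n, ?_⟩
    have h7 : (6 * (m : ℤ) * c * k) * q n = ((j : ℤ) * (3 * c ^ 2 - k ^ 2)) * r n := by
      rw [ht1, ht2]; ring
    have h8 : ((3 * c ^ 2 - k ^ 2 : ℕ) : ℤ) = 3 * c ^ 2 - k ^ 2 := by
      push_cast [Nat.cast_sub hkc]
      ring
    have h9 : ((6 * m * c * k * q n : ℕ) : ℤ) = ((j * (3 * c ^ 2 - k ^ 2) * r n : ℕ) : ℤ) := by
      rw [Nat.cast_mul (j * (3 * c ^ 2 - k ^ 2)), Nat.cast_mul j, h8]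
      push_cast
      exact h7
    exact_mod_cast h9

/-- the bound for `log c` -/
theorem log_bound (x P : ℕ) (hP : 1 ≤ P) (h : x < q (10 ^ 7 * P ^ 13)) :
    Real.log x ≤ 2 * 10 ^ 8 * (P : ℝ) ^ 14 := by
  have hPR : (1 : ℝ) ≤ P := by exact_mod_cast hP
  have h13 : 1 ≤ P ^ 13 := Nat.one_le_pow _ _ hP
  obtain ⟨N1, hN1⟩ : ∃ N1, N1 = 10 ^ 7 * P ^ 13 := ⟨_, rfl⟩
  have hN1big : 10 ^ 7 ≤ N1 := by rw [hN1]; omega
  rw [← hN1] at h
  rcases Nat.eq_zero_or_pos x with h0 | hx0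
  · rw [h0]
    simp only [Nat.cast_zero, Real.log_zero]
    positivity
  · have hxR : (0 : ℝ) < x := by exact_mod_cast hx0
    have h1 : (x : ℝ) ≤ (4 * N1 : ℝ) ^ N1 := by
      have h2 := q_upper N1 (by omega)
      have h3 : x ≤ (4 * N1) ^ N1 := h.le.trans h2
      exact_mod_cast h3
    have h2 := Real.log_le_log hxR h1
    rw [Real.log_pow] at h2
    have h3 : Real.log (4 * 10 ^ 7) ≤ 20 := by
      rw [Real.log_le_iff_le_exp (by norm_num)]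
      have h1 : Real.exp 20 = (Real.exp 1) ^ 20 := by
        rw [← Real.exp_nat_mul]; norm_num
      rw [h1]
      have h2 : (2.7 : ℝ) ≤ Real.exp 1 := by linarith [Real.exp_one_gt_d9]
      have h3 : (2.7 : ℝ) ^ 20 ≤ Real.exp 1 ^ 20 := pow_le_pow_left₀ (by norm_num) h2 20
      refine le_trans ?_ h3
      norm_num
    have h7 : Real.log (4 * N1) ≤ 20 * P := by
      have e1 : (4 * N1 : ℝ) = (4 * 10 ^ 7) * (P : ℝ) ^ 13 := by
        rw [hN1]; push_cast; ring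
      rw [e1, Real.log_mul (by norm_num) (by positivity), Real.log_pow]
      have e3 := Real.log_le_sub_one_of_pos (show (0 : ℝ) < P by linarith)
      push_cast
      linarith
    have h8 : (N1 : ℝ) * Real.log (4 * N1) ≤ (10 ^ 7 * (P : ℝ) ^ 13) * (20 * P) := by
      have e1 : (N1 : ℝ) = 10 ^ 7 * (P : ℝ) ^ 13 := by rw [hN1]; push_cast; ring
      rw [e1] at h7 ⊢
      exact mul_le_mul_of_nonneg_left h7 (by positivity)
    have h9 : (10 ^ 7 * (P : ℝ) ^ 13) * (20 * P) = 2 * 10 ^ 8 * (P : ℝ) ^ 14 := by ring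
    linarith

/-- in lowest terms and beyond the bound, `4` divides `j` and `p - q` -/
theorem main (p q' m j : ℕ) (hq : 1 ≤ q') (hpq : q' < p) (hcop : Nat.Coprime p q') (hj : 1 ≤ j)
    (h : exp (exp 1) ^ j = ((p : ℝ) / (q' : ℝ)) ^ m)
    (hbig : q (10 ^ 7 * (j * (p - q')) ^ 13) ≤ q') :
    4 ∣ j ∧ 4 ∣ p - q' ∧ padicValNat 2 j = padicValNat 2 m + padicValNat 2 (p - q') := by
  have : Fact (Nat.Prime 2) := ⟨Nat.prime_two⟩
  have hN : ∀ k : ℕ, 1 ≤ k → k ≤ p - q' → ∀ c : ℕ, q' ≤ c →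
      exp (exp 1) ^ j = (((c : ℝ) + k) / ((c : ℝ) - k)) ^ m →
      k < c ∧ 1 + padicValNat 2 m + padicValNat 2 k = padicValNat 2 j + padicValNat 2 c ∧
      1 + padicValNat 2 m + padicValNat 2 c + padicValNat 2 k =
        padicValNat 2 j + padicValNat 2 (3 * c ^ 2 - k ^ 2) := by
    intro k hk hkle c hc hh
    have h1 : q (10 ^ 7 * (j * k) ^ 13) ≤ c := by
      refine le_trans (q_mono ?_) (hbig.trans hc)
      exact Nat.mul_le_mul_left _ (Nat.pow_le_pow_left (Nat.mul_le_mul_left _ hkle) 13)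
    obtain ⟨h2, h3, h4, h5⟩ := core k j hk hj c m h1 hh
    exact ⟨h2, PowersNearOne.core_val k j c m hk hj h2 h3 h4 h5⟩
  have hqR : (0 : ℝ) < q' := by exact_mod_cast hq
  have hnot : ¬ (p % 2 = 0 ∧ q' % 2 = 0) := by
    rintro ⟨a1, a2⟩
    have a3 : 2 ∣ Nat.gcd p q' := Nat.dvd_gcd (by omega) (by omega)
    rw [hcop] at a3
    omega
  rcases Nat.even_or_odd (p + q') with he | ho
  · -- `p + q = 2 c`, `p - q = 2 k`
    obtain ⟨c, hc⟩ := he
    obtain ⟨k, hk⟩ : ∃ k, p = q' + 2 * k := by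
      refine ⟨(p - q') / 2, by omega⟩
    have hcq : c = q' + k := by omega
    have hqodd : q' % 2 = 1 := by omega
    have hk1 : 1 ≤ k := by omega
    obtain ⟨hkc, h1, h2⟩ := hN k hk1 (by omega) c (by omega) (by
      rw [h]
      congr 1
      rw [hcq, hk]
      push_cast
      have e1 : (q' : ℝ) + k - k = q' := by ring
      rw [e1]
      congr 1
      ring)
    have hsq : k ^ 2 ≤ 3 * c ^ 2 := by nlinarith
    obtain ⟨w, hw⟩ : ∃ w, 3 * c ^ 2 = w + k ^ 2 := ⟨3 * c ^ 2 - k ^ 2, by omega⟩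
    have hw' : 3 * c ^ 2 - k ^ 2 = w := by omega
    rw [hw'] at h2
    have hwodd : w % 2 = 1 := by
      have e3 : (3 * c ^ 2) % 2 = (w + k ^ 2) % 2 := by rw [hw]
      rcases Nat.even_or_odd' c with ⟨c', hc' | hc'⟩ <;>
        rcases Nat.even_or_odd' k with ⟨k', hk' | hk'⟩
      · omega
      · subst hc'; subst hk'
        ring_nf at e3
        omega
      · subst hc'; subst hk'
        ring_nf at e3
        omega
      · omega
    rw [PowersNearOne.val_odd w hwodd] at h2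
    rcases Nat.mod_two_eq_zero_or_one k with hk2 | hk2
    · -- `k` even, `c` odd
      have hc2 : c % 2 = 1 := by omega
      rw [PowersNearOne.val_odd c hc2] at h1 h2
      have hpq' : p - q' = 2 * k := by omega
      have hv2 : padicValNat 2 2 = 1 := padicValNat.self (by norm_num)
      have hvk : padicValNat 2 (p - q') = 1 + padicValNat 2 k := by
        rw [hpq', padicValNat.mul (by norm_num) (by omega), hv2]
      have hke := PowersNearOne.val_even k hk2 (by omega)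
      refine ⟨?_, by omega, by omega⟩
      have h5 : 2 ^ 2 ∣ j := by
        rw [padicValNat_dvd_iff_le (by omega)]
        omega
      simpa using h5
    · -- `k` odd, `c` even
      exfalso
      have hc2 : c % 2 = 0 := by omega
      have hce := PowersNearOne.val_even c hc2 (by omega)
      rw [PowersNearOne.val_odd k hk2] at h1 h2
      omega
  · -- `c = p + q`, `k = p - q`, both odd
    exfalso
    obtain ⟨k, hk⟩ : ∃ k, p = q' + k := ⟨p - q', by omega⟩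
    have hk1 : 1 ≤ k := by omega
    obtain ⟨hkc, h1, h2⟩ := hN k hk1 (by omega) (p + q') (by omega) (by
      rw [h]
      congr 1
      rw [hk]
      push_cast
      have e1 : (q' : ℝ) + k + q' - k = 2 * q' := by ring
      have e2 : (q' : ℝ) + k + q' + k = 2 * (q' + k) := by ring
      rw [e1, e2, mul_div_mul_left _ _ (by norm_num)])
    have hcodd : (p + q') % 2 = 1 := Nat.odd_iff.1 ho
    have hkodd : k % 2 = 1 := by omega
    have hsq : k ^ 2 < 3 * (p + q') ^ 2 := by nlinarith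
    obtain ⟨w, hw⟩ : ∃ w, 3 * (p + q') ^ 2 = w + k ^ 2 := ⟨3 * (p + q') ^ 2 - k ^ 2, by omega⟩
    have hw' : 3 * (p + q') ^ 2 - k ^ 2 = w := by omega
    have hw0 : w ≠ 0 := by omega
    rw [hw'] at h2
    have hweven : w % 2 = 0 := by
      have e3 : (3 * (p + q') ^ 2) % 2 = (w + k ^ 2) % 2 := by rw [hw]
      obtain ⟨c', hc'⟩ : ∃ c', p + q' = 2 * c' + 1 := ⟨(p + q') / 2, by omega⟩
      obtain ⟨k', hk'⟩ : ∃ k', k = 2 * k' + 1 := ⟨k / 2, by omega⟩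
      rw [hc', hk'] at e3
      ring_nf at e3
      omega
    have hwe := PowersNearOne.val_even w hweven hw0
    rw [PowersNearOne.val_odd k hkodd, PowersNearOne.val_odd (p + q') hcodd] at h1 h2
    omega

/-- Let `p / q > 1` be a fraction in lowest terms with `(e ^ e) ^ j = (p / q) ^ m`, `j ≥ 1`. Then
`log q ≤ 2 · 10 ^ 8 (j (p - q)) ^ 14`, or `4` divides `j` and `p - q` and
`v₂ j = v₂ m + v₂ (p - q)`. In particular `log q ≤ 2 · 10 ^ 8 (p - q) ^ 14` if `e ^ e` itself is a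
power of `p / q`. -/
theorem result :
    (∀ p q m j : ℕ, 1 ≤ q → q < p → Nat.Coprime p q → 1 ≤ j →
      Real.exp (Real.exp 1) ^ j = ((p : ℝ) / (q : ℝ)) ^ m →
      Real.log q ≤ 2 * 10 ^ 8 * ((j : ℝ) * ((p : ℝ) - q)) ^ 14 ∨
      (4 ∣ j ∧ 4 ∣ p - q ∧ padicValNat 2 j = padicValNat 2 m + padicValNat 2 (p - q))) ∧
    (∀ p q m : ℕ, 1 ≤ q → q < p → Nat.Coprime p q →
      Real.exp (Real.exp 1) = ((p : ℝ) / (q : ℝ)) ^ m →
      Real.log q ≤ 2 * 10 ^ 8 * ((p : ℝ) - q) ^ 14) := by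
  have h0 : ∀ p q m j : ℕ, 1 ≤ q → q < p → Nat.Coprime p q → 1 ≤ j →
      Real.exp (Real.exp 1) ^ j = ((p : ℝ) / (q : ℝ)) ^ m →
      Real.log q ≤ 2 * 10 ^ 8 * ((j : ℝ) * ((p : ℝ) - q)) ^ 14 ∨
      (4 ∣ j ∧ 4 ∣ p - q ∧ padicValNat 2 j = padicValNat 2 m + padicValNat 2 (p - q)) := by
    intro p q' m j hq hpq hcop hj h
    rcases le_or_gt (q (10 ^ 7 * (j * (p - q')) ^ 13)) q' with hb | hb
    · exact Or.inr (main p q' m j hq hpq hcop hj h hb)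
    · left
      have hP : 1 ≤ j * (p - q') := Nat.mul_le_mul hj (by omega : 1 ≤ p - q')
      have h1 := log_bound q' (j * (p - q')) hP hb
      have e1 : ((j * (p - q') : ℕ) : ℝ) = (j : ℝ) * ((p : ℝ) - q') := by
        push_cast [Nat.cast_sub hpq.le]; ring
      rw [e1] at h1
      exact h1
  refine ⟨h0, fun p q' m hq hpq hcop h => ?_⟩
  rcases h0 p q' m 1 hq hpq hcop le_rfl (by rw [pow_one]; exact h) with h1 | h1
  · rw [Nat.cast_one, one_mul] at h1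
    exact h1
  · omega

end Pool.Agent.Results.MP_58ae59_nt.DifferenceOfTerms
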