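import Mathlib
import Pool.Agent.W5h65.EE.Count

/-!
# The rationals `r` for which `e` and `e ^ (e ^ r)` are algebraically dependent
-/

set_option autoImplicit false

namespace Pool.Agent.Results.MP_58ae59_nt.RationalExponents

open Pointwise Polynomial Pool.Agent.W5h65.EE

/-- `e ^ (e ^ r)` is an algebraic number -/
def Alg (r : ℚ) : Prop := IsAlgebraic ℚ (Complex.exp (Complex.exp (r : ℂ)))

/-- `e ^ (e ^ r)` is algebraic over `ℚ(e)`; equivalently (as `e` is transcendental), `e` and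
`e ^ (e ^ r)` are algebraically dependent over `ℚ` -/
def Dep (r : ℚ) : Prop :=
  IsAlgebraic (IntermediateField.adjoin ℚ {Complex.exp 1}) (Complex.exp (Complex.exp (r : ℂ)))

/-- Let `S` be the set of rational numbers `r` with `e ^ (e ^ r)` algebraic and let `D ⊇ S` be
the set of rational numbers `r` such that `e` and `e ^ (e ^ r)` are algebraically dependent. -/
theorem result :
    -- all but at most `4 H ^ (3/2)` of the rationals of height at most `H` lie outside `D`
    (∀ (H : ℕ) (T : Finset ℚ), (∀ r ∈ T, |r.num| ≤ H ∧ r.den ≤ H ∧ Dep r) →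
      T.card ^ 2 ≤ 16 * H ^ 3) ∧
    -- all but fewer than `2 √N` of the integers `1, …, N` lie outside `D`
    (∀ (N : ℕ) (T : Finset ℕ), (∀ n ∈ T, 1 ≤ n ∧ n ≤ N ∧ Dep n) →
      T.card * (T.card + 1) ≤ 4 * N) ∧
    -- all but fewer than `√(2 N)` of the integers `1, …, N` lie outside `S`
    (∀ (N : ℕ) (T : Finset ℕ), (∀ n ∈ T, 1 ≤ n ∧ n ≤ N ∧ Alg n) →
      T.card * (T.card + 1) ≤ 2 * N) ∧
    -- difference sets: every nonzero rational is at most twice a difference of elements of `D`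
    (∀ a b c t : ℚ, a ≠ b → a ≠ c → b ≠ c → t ≠ 0 → Dep a → Dep b → Dep c →
      ¬ (Dep (a + t) ∧ Dep (b + t) ∧ Dep (c + t))) ∧
    (∀ T : Finset ℚ, (∀ r ∈ T, Dep r) → T.card * (T.card - 1) ≤ 2 * ((T - T).card - 1)) ∧
    -- `S` is a Sidon set, and it is sum-free
    (∀ a b t : ℚ, a ≠ b → t ≠ 0 → Alg a → Alg b → ¬ (Dep (a + t) ∧ Dep (b + t))) ∧
    (∀ a b c d : ℚ, Alg a → Alg b → Alg c → Alg d → a + b = c + d →
      (a = c ∧ b = d) ∨ (a = d ∧ b = c)) ∧
    (∀ a b : ℚ, Alg a → Alg b → ¬ Alg (a + b)) ∧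
    -- linear version: polynomials `P` without constant term and the numbers `e ^ P(e)`
    (∀ (N k : ℕ) (P : Fin k → ℚ[X]), LinearIndependent ℚ P →
      (∀ i, (P i).natDegree ≤ N ∧ (P i).coeff 0 = 0) →
      ((∀ i, IsAlgebraic ℚ (Complex.exp (aeval (Complex.exp 1) (P i)))) → 2 * k ≤ N + 1) ∧
      ((∀ i, IsAlgebraic (IntermediateField.adjoin ℚ {Complex.exp 1})
        (Complex.exp (aeval (Complex.exp 1) (P i)))) → 2 * k ≤ N + 2)) := by
  refine ⟨fun H T hT => count_height H T hT, fun N T hT => count_nat_SE N T ?_,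
    fun N T hT => count_nat_SA N T ?_, ?_, fun T hT => count_SE T hT, ?_,
    fun a b c d ha hb hc hd h => sidon ha hb hc hd h, fun a b ha hb => sumfree ha hb,
    fun N k P h1 h2 => ⟨fun h3 => ?_, fun h3 => ?_⟩⟩
  · intro n hn
    exact hT n hn
  · intro n hn
    exact hT n hn
  · rintro a b c t hab hac hbc ht ha hb hc ⟨h1, h2, h3⟩
    exact gel_grid hab hac hbc ht ha hb hc h1 h2 h3
  · rintro a b t hab ht ha hb ⟨h1, h2⟩
    exact bw_grid hab ht ha hb h1 h2
  · exact poly_alg N k P h1 (fun i => (h2 i).1) (fun i => (h2 i).2) h3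
  · exact poly_algE N k P h1 (fun i => (h2 i).1) (fun i => (h2 i).2) h3

end Pool.Agent.Results.MP_58ae59_nt.RationalExponents
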