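import Mathlib
import Pool.Agent.W99.ExpE.Main

set_option autoImplicit false

namespace Pool.Agent.Results.MP_58ae59_nt.RationalsNearOne

open Real Pool.Agent.H43R2.Cplx

theorem den_mono : Monotone EMeas.q := Pool.Agent.H43R2.Cplx.EMeas.q_mono

/-- the case `c = p + q`, `k = p - q` of the main estimate -/
theorem bound (p q m j : ℕ) (hq : 1 ≤ q) (hpq : q < p) (hj : 1 ≤ j)
    (h : exp (exp 1) ^ j = ((p : ℝ) / (q : ℝ)) ^ m) :
    j * (p + q) < EMeas.q (EMeas.q (10 ^ 10 * (j * (p - q)) ^ 13)) := by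
  by_contra hcon
  push Not at hcon
  refine Pool.Agent.W99.ExpE.no_sol j (p - q) (p + q) m hj (by omega) hcon ?_
  rw [h]
  congr 1
  have hqR : (0 : ℝ) < q := by
    have : 0 < q := by omega
    exact_mod_cast this
  push_cast [Nat.cast_sub hpq.le]
  have e1 : (p : ℝ) + q + (p - q) = 2 * p := by ring
  have e2 : (p : ℝ) + q - (p - q) = 2 * q := by ring
  rw [e1, e2, mul_div_mul_left _ _ (by norm_num)]

theorem log_4e10 : Real.log (4 * 10 ^ 10) ≤ 25 := by
  rw [Real.log_le_iff_le_exp (by norm_num)]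
  have h1 : Real.exp 25 = (Real.exp 1) ^ 25 := by
    rw [← Real.exp_nat_mul]; norm_num
  rw [h1]
  have h2 : (2.7 : ℝ) ≤ Real.exp 1 := by linarith [Real.exp_one_gt_d9]
  have h3 : (2.7 : ℝ) ^ 25 ≤ Real.exp 1 ^ 25 := pow_le_pow_left₀ (by norm_num) h2 25
  refine le_trans ?_ h3
  norm_num

/-- bound for the iterated logarithm -/
theorem loglog (x P : ℕ) (hP : 1 ≤ P) (h : x < EMeas.q (EMeas.q (10 ^ 10 * P ^ 13))) :
    Real.log (Real.log x) ≤ 10 ^ 12 * (P : ℝ) ^ 14 := by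
  have hPR : (1 : ℝ) ≤ P := by exact_mod_cast hP
  have h14 : (1 : ℝ) ≤ (P : ℝ) ^ 14 := one_le_pow₀ hPR
  have h13 : 1 ≤ P ^ 13 := Nat.one_le_pow _ _ hP
  obtain ⟨N2, hN2⟩ : ∃ N2, N2 = 10 ^ 10 * P ^ 13 := ⟨_, rfl⟩
  have hN2big : 10 ^ 10 ≤ N2 := by rw [hN2]; omega
  rw [← hN2] at h
  obtain ⟨M, hM⟩ : ∃ M, M = EMeas.q N2 := ⟨_, rfl⟩
  rw [← hM] at h
  have hMbig : N2 ≤ M := by rw [hM]; exact Pool.Agent.W99.ExpE.q_ge N2 (by omega)
  have hM1 : 1 ≤ M := by omega
  have hM0 : (0 : ℝ) < M := by exact_mod_cast hM1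
  rcases le_or_gt (Real.log x) 1 with hl | hl
  · have h0 : 0 ≤ Real.log x := Real.log_natCast_nonneg x
    have := Real.log_nonpos h0 hl
    linarith
  · have hx0 : 0 < x := by
      rcases Nat.eq_zero_or_pos x with h0 | h0
      · rw [h0] at hl; simp at hl; linarith
      · exact h0
    have hxR : (0 : ℝ) < x := by exact_mod_cast hx0
    have h1 : (x : ℝ) ≤ (4 * M : ℝ) ^ M := by
      have h2 := Pool.Agent.W99.ExpE.q_upper M hM1
      have h3 : x ≤ (4 * M) ^ M := h.le.trans h2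
      exact_mod_cast h3
    have h2 : Real.log x ≤ 4 * (M : ℝ) ^ 2 := by
      have h3 := Real.log_le_log hxR h1
      rw [Real.log_pow] at h3
      have h4 : Real.log (4 * M) ≤ 4 * M := by
        have := Real.log_le_sub_one_of_pos (show (0 : ℝ) < 4 * M by positivity)
        linarith
      have h5 := mul_le_mul_of_nonneg_left h4 hM0.le
      nlinarith
    have h3 : Real.log (Real.log x) ≤ Real.log (4 * (M : ℝ) ^ 2) :=
      Real.log_le_log (by linarith) h2
    have h4 : Real.log (4 * (M : ℝ) ^ 2) = Real.log 4 + 2 * Real.log M := by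
      rw [Real.log_mul (by norm_num) (by positivity), Real.log_pow]; norm_num
    have h5 : Real.log 4 ≤ 3 := by
      have := Real.log_le_sub_one_of_pos (show (0 : ℝ) < 4 by norm_num)
      linarith
    have hN1 : 1 ≤ N2 := by omega
    have h6 : Real.log M ≤ N2 * Real.log (4 * N2) := by
      have h7 := Pool.Agent.W99.ExpE.q_upper N2 hN1
      rw [← hM] at h7
      have h8 : (M : ℝ) ≤ (4 * N2 : ℝ) ^ N2 := by exact_mod_cast h7
      have h9 := Real.log_le_log hM0 h8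
      rw [Real.log_pow] at h9
      exact h9
    have h7 : Real.log (4 * N2) ≤ 25 * P := by
      have e1 : (4 * N2 : ℝ) = (4 * 10 ^ 10) * (P : ℝ) ^ 13 := by
        rw [hN2]; push_cast; ring
      rw [e1, Real.log_mul (by norm_num) (by positivity), Real.log_pow]
      have e2 := log_4e10
      have e3 := Real.log_le_sub_one_of_pos (show (0 : ℝ) < P by linarith)
      push_cast
      linarith
    have h8 : (N2 : ℝ) * Real.log (4 * N2) ≤ (10 ^ 10 * (P : ℝ) ^ 13) * (25 * P) := by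
      have e1 : (N2 : ℝ) = 10 ^ 10 * (P : ℝ) ^ 13 := by rw [hN2]; push_cast; ring
      rw [e1] at h7 ⊢
      exact mul_le_mul_of_nonneg_left h7 (by positivity)
    have h9 : (10 ^ 10 * (P : ℝ) ^ 13) * (25 * P) = 25 * 10 ^ 10 * (P : ℝ) ^ 14 := by ring
    rw [h9] at h8
    rw [h4] at h3
    linarith

/-- Suppose that `(e ^ e) ^ j = (p / q) ^ m` with `1 ≤ q < p`, `1 ≤ j` and `m ≥ 0`. Then
`log log q ≤ 10 ^ 12 (j (p - q)) ^ 14`. In particular, for every `D` there is an `N` such that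
`(e ^ e) ^ j` is not a power of `p / q` when `N ≤ q < p ≤ q + D` and `1 ≤ j ≤ D`. -/
theorem result :
    (∀ p q m j : ℕ, 1 ≤ q → q < p → 1 ≤ j →
      Real.exp (Real.exp 1) ^ j = ((p : ℝ) / (q : ℝ)) ^ m →
      Real.log (Real.log q) ≤ 10 ^ 12 * ((j : ℝ) * ((p : ℝ) - q)) ^ 14) ∧
    (∀ D : ℕ, ∃ N : ℕ, ∀ p q m j : ℕ, N ≤ q → q < p → p ≤ q + D → 1 ≤ j → j ≤ D →
      Real.exp (Real.exp 1) ^ j ≠ ((p : ℝ) / (q : ℝ)) ^ m) := by
  constructor
  · intro p q m j hq hpq hj h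
    have hb := bound p q m j hq hpq hj h
    have hP : 1 ≤ j * (p - q) := Nat.mul_le_mul hj (by omega : 1 ≤ p - q)
    have hqle : q ≤ j * (p + q) := by
      calc q ≤ 1 * (p + q) := by omega
        _ ≤ j * (p + q) := Nat.mul_le_mul_right _ hj
    have h1 := loglog q (j * (p - q)) hP (hqle.trans_lt hb)
    have e1 : ((j * (p - q) : ℕ) : ℝ) = (j : ℝ) * ((p : ℝ) - q) := by
      push_cast [Nat.cast_sub hpq.le]; ring
    rw [e1] at h1
    exact h1
  · intro D
    refine ⟨max 1 (EMeas.q (EMeas.q (10 ^ 10 * (D * D) ^ 13))), fun p q m j hN hpq hpD hj hjD h => ?_⟩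
    have hq1 : 1 ≤ q := (le_max_left _ _).trans hN
    have hq2 := (le_max_right _ _).trans hN
    have hb := bound p q m j hq1 hpq hj h
    have hP : j * (p - q) ≤ D * D := Nat.mul_le_mul hjD (by omega)
    have h1 : 10 ^ 10 * (j * (p - q)) ^ 13 ≤ 10 ^ 10 * (D * D) ^ 13 :=
      Nat.mul_le_mul_left _ (Nat.pow_le_pow_left hP 13)
    have h2 := den_mono (den_mono h1)
    have hqle : q ≤ j * (p + q) := by
      calc q ≤ 1 * (p + q) := by omega
        _ ≤ j * (p + q) := Nat.mul_le_mul_right _ hj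
    omega

end Pool.Agent.Results.MP_58ae59_nt.RationalsNearOne
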